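import Mathlib

set_option autoImplicit false
set_option linter.unusedSectionVars false
set_option linter.unusedVariables false

namespace Pool.Agent.HIG8

open Matrix

variable {ι : Type} [Fintype ι] [LinearOrder ι] {F : Type} [Field F]

/-- upper triangular -/
def Up (g : Matrix ι ι F) : Prop := ∀ i j, j < i → g i j = 0

theorem Up.bt {g : Matrix ι ι F} (h : Up g) : BlockTriangular g id := fun i j hij => h i j hij

theorem Up.of_bt {g : Matrix ι ι F} (h : BlockTriangular g id) : Up g := fun i j hij => h hij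

theorem Up.mul {g h : Matrix ι ι F} (hg : Up g) (hh : Up h) : Up (g * h) :=
  Up.of_bt (hg.bt.mul hh.bt)

theorem Up.add {g h : Matrix ι ι F} (hg : Up g) (hh : Up h) : Up (g + h) := by
  intro i j hij
  simp [hg i j hij, hh i j hij]

theorem Up.sub {g h : Matrix ι ι F} (hg : Up g) (hh : Up h) : Up (g - h) := by
  intro i j hij
  simp [hg i j hij, hh i j hij]

theorem Up.neg {g : Matrix ι ι F} (hg : Up g) : Up (-g) := by
  intro i j hij
  simp [hg i j hij]

theorem Up.one : Up (1 : Matrix ι ι F) := by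
  intro i j hij
  exact Matrix.one_apply_ne (ne_of_gt hij)

theorem Up.zero : Up (0 : Matrix ι ι F) := by
  intro i j hij
  rfl

theorem Up.pow {g : Matrix ι ι F} (hg : Up g) (n : ℕ) : Up (g ^ n) := by
  induction n with
  | zero => simpa using Up.one
  | succ n ih => rw [pow_succ]; exact ih.mul hg

theorem Up.diagonal (d : ι → F) : Up (Matrix.diagonal d) := by
  intro i j hij
  exact Matrix.diagonal_apply_ne _ (ne_of_gt hij)

theorem Up.sum {κ : Type} (s : Finset κ) (f : κ → Matrix ι ι F) (h : ∀ k ∈ s, Up (f k)) :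
    Up (∑ k ∈ s, f k) := by
  intro i j hij
  rw [Matrix.sum_apply]
  exact Finset.sum_eq_zero fun k hk => h k hk i j hij

theorem Up.mul_diag {g h : Matrix ι ι F} (hg : Up g) (hh : Up h) (i : ι) :
    (g * h) i i = g i i * h i i := by
  rw [Matrix.mul_apply, Finset.sum_eq_single i]
  · intro k _ hk
    rcases lt_or_gt_of_ne hk with h1 | h1
    · rw [hg i k h1, zero_mul]
    · rw [hh k i h1, mul_zero]
  · intro h1
    exact absurd (Finset.mem_univ i) h1

theorem Up.pow_diag {g : Matrix ι ι F} (hg : Up g) (n : ℕ) (i : ι) :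
    (g ^ n) i i = (g i i) ^ n := by
  induction n with
  | zero => simp
  | succ n ih => rw [pow_succ, (hg.pow n).mul_diag hg, ih, pow_succ]

theorem Up.det {g : Matrix ι ι F} (hg : Up g) : g.det = ∏ i, g i i :=
  Matrix.det_of_upperTriangular hg.bt

theorem Up.isUnit_det {g : Matrix ι ι F} (hg : Up g) (h : ∀ i, g i i ≠ 0) : IsUnit g.det := by
  rw [hg.det, isUnit_iff_ne_zero]
  exact Finset.prod_ne_zero_iff.2 fun i _ => h i

theorem Up.inv {g : Matrix ι ι F} (hg : Up g) (h : ∀ i, g i i ≠ 0) : Up g⁻¹ := by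
  have hu := hg.isUnit_det h
  haveI : Invertible g := Matrix.invertibleOfIsUnitDet g hu
  exact Up.of_bt (blockTriangular_inv_of_blockTriangular hg.bt)

theorem Up.inv_diag {g : Matrix ι ι F} (hg : Up g) (h : ∀ i, g i i ≠ 0) (i : ι) :
    g⁻¹ i i = (g i i)⁻¹ := by
  have hu := hg.isUnit_det h
  have h1 : g * g⁻¹ = 1 := Matrix.mul_nonsing_inv g hu
  have h2 := hg.mul_diag (hg.inv h) i
  rw [h1, Matrix.one_apply_eq] at h2
  exact eq_inv_of_mul_eq_one_right h2.symm

end Pool.Agent.HIG8
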