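import Pool.Agent.HIG8.Stab

set_option autoImplicit false
set_option linter.unusedSectionVars false
set_option linter.unusedVariables false

namespace Pool.Agent.HIG8

open Matrix

variable {ι : Type} [Fintype ι] [LinearOrder ι] {F : Type} [Field F] {κ : Type} [DecidableEq κ]

/-- the fibre of `t` over `c` -/
abbrev Fib (t : ι → κ) (c : κ) : Type := {i : ι // t i = c}

/-- diagonal block -/
def blk (t : ι → κ) (A : Matrix ι ι F) (c : κ) : Matrix (Fib t c) (Fib t c) F :=
  A.submatrix Subtype.val Subtype.val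

/-- block sum -/
def glue (t : ι → κ) (A : ∀ c : κ, Matrix (Fib t c) (Fib t c) F) : Matrix ι ι F :=
  Matrix.of fun i j => if h : t i = t j then A (t i) ⟨i, rfl⟩ ⟨j, h.symm⟩ else 0

theorem glue_ne (t : ι → κ) (A : ∀ c : κ, Matrix (Fib t c) (Fib t c) F) {i j : ι}
    (h : t i ≠ t j) : glue t A i j = 0 := by
  simp [glue, h]

theorem glue_eq (t : ι → κ) (A : ∀ c : κ, Matrix (Fib t c) (Fib t c) F) (c : κ) (i j : Fib t c) :
    glue t A i.1 j.1 = A c i j := by
  obtain ⟨i, rfl⟩ := i
  obtain ⟨j, hj⟩ := j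
  simp [glue, hj]

theorem blk_glue (t : ι → κ) (A : ∀ c : κ, Matrix (Fib t c) (Fib t c) F) :
    blk t (glue t A) = A := by
  funext c
  ext i j
  exact glue_eq t A c i j

theorem glue_blk (t : ι → κ) (B : Matrix ι ι F) (h : ∀ i j, t i ≠ t j → B i j = 0) :
    glue t (blk t B) = B := by
  ext i j
  by_cases hij : t i = t j
  · exact glue_eq t (blk t B) (t i) ⟨i, rfl⟩ ⟨j, hij.symm⟩
  · rw [glue_ne t _ hij, h i j hij]

theorem sum_fib (t : ι → κ) (c : κ) (f : ι → F) (h : ∀ k, t k ≠ c → f k = 0) :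
    ∑ k, f k = ∑ k : Fib t c, f k.1 := by
  rw [← Finset.sum_subtype (Finset.univ.filter fun k => t k = c) (by simp) f]
  symm
  apply Finset.sum_subset (Finset.filter_subset _ _)
  intro k _ hk
  apply h
  simpa using hk

theorem glue_mul (t : ι → κ) (A B : ∀ c : κ, Matrix (Fib t c) (Fib t c) F) :
    glue t A * glue t B = glue t (fun c => A c * B c) := by
  ext i j
  rw [Matrix.mul_apply]
  by_cases hij : t i = t j
  · have e : glue t (fun c => A c * B c) i j = (A (t i) * B (t i)) ⟨i, rfl⟩ ⟨j, hij.symm⟩ :=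
      glue_eq t _ (t i) ⟨i, rfl⟩ ⟨j, hij.symm⟩
    rw [e, Matrix.mul_apply, sum_fib t (t i)]
    · refine Finset.sum_congr rfl fun k _ => ?_
      rw [← glue_eq t A (t i) ⟨i, rfl⟩ k, ← glue_eq t B (t i) k ⟨j, hij.symm⟩]
    · intro k hk
      rw [glue_ne t A (Ne.symm hk), zero_mul]
  · rw [glue_ne t _ hij]
    refine Finset.sum_eq_zero fun k _ => ?_
    by_cases hk : t i = t k
    · rw [glue_ne t B (fun h => hij (hk.trans h)), mul_zero]
    · rw [glue_ne t A hk, zero_mul]

theorem glue_sub (t : ι → κ) (A B : ∀ c : κ, Matrix (Fib t c) (Fib t c) F) :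
    glue t A - glue t B = glue t (fun c => A c - B c) := by
  ext i j
  rw [Matrix.sub_apply]
  by_cases hij : t i = t j
  · simp [glue, hij]
  · rw [glue_ne t _ hij, glue_ne t _ hij, glue_ne t _ hij, sub_self]

theorem glue_up (t : ι → κ) (A : ∀ c : κ, Matrix (Fib t c) (Fib t c) F) (h : ∀ c, Up (A c)) :
    Up (glue t A) := by
  intro i j hji
  by_cases hij : t i = t j
  · have e : glue t A i j = A (t i) ⟨i, rfl⟩ ⟨j, hij.symm⟩ :=
      glue_eq t _ (t i) ⟨i, rfl⟩ ⟨j, hij.symm⟩
    rw [e]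
    exact h _ _ _ hji
  · exact glue_ne t _ hij

theorem glue_diag (t : ι → κ) (A : ∀ c : κ, Matrix (Fib t c) (Fib t c) F) (i : ι) :
    glue t A i i = A (t i) ⟨i, rfl⟩ ⟨i, rfl⟩ :=
  glue_eq t A (t i) ⟨i, rfl⟩ ⟨i, rfl⟩

theorem blk_up (t : ι → κ) {A : Matrix ι ι F} (h : Up A) (c : κ) : Up (blk t A c) :=
  fun i j hij => h i.1 j.1 hij

theorem glue_rel_iff (t : ι → κ) (D : F → Prop) (A B : ∀ c : κ, Matrix (Fib t c) (Fib t c) F) :
    Rel D (glue t A) (glue t B) ↔ ∀ c, Rel D (A c) (B c) := by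
  constructor
  · rintro ⟨g, hg, hd, hr⟩ c
    refine ⟨blk t g c, blk_up t hg c, fun i => hd i.1, ?_⟩
    have e : blk t g c * A c - B c * blk t g c = blk t (g * glue t A - glue t B * g) c := by
      ext i j
      show (blk t g c * A c) i j - (B c * blk t g c) i j =
        (g * glue t A) i.1 j.1 - (glue t B * g) i.1 j.1
      rw [Matrix.mul_apply, Matrix.mul_apply, Matrix.mul_apply, Matrix.mul_apply,
        sum_fib t c (fun k => g i.1 k * glue t A k j.1),
        sum_fib t c (fun k => glue t B i.1 k * g k j.1)]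
      · congr 1
        · refine Finset.sum_congr rfl fun k _ => ?_
          rw [glue_eq]
          rfl
        · refine Finset.sum_congr rfl fun k _ => ?_
          rw [glue_eq]
          rfl
      · intro k hk
        rw [glue_ne t B (fun h => hk (h ▸ i.2)), zero_mul]
      · intro k hk
        rw [glue_ne t A (fun h => hk (h.trans j.2)), mul_zero]
    rw [e]
    exact blk_up t hr c
  · intro h
    choose g hg hd hr using h
    refine ⟨glue t g, glue_up t g hg, fun i => ?_, ?_⟩
    · rw [glue_diag]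
      exact hd _ _
    · rw [glue_mul, glue_mul, glue_sub]
      exact glue_up t _ hr

end Pool.Agent.HIG8
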