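import Mathlib

set_option autoImplicit false
set_option linter.unusedSectionVars false
set_option linter.unusedVariables false

namespace Pool.Agent.HIG8

open Finset

/-- sum over surjections -/
noncomputable def surjSum (n m : ℕ) (y : ℕ → ℚ) : ℚ := by
  classical
  exact ∑ s ∈ (univ : Finset (Fin n → Fin m)).filter (fun s => Function.Surjective s),
    ∏ d : Fin m, y (Fintype.card {i // s i = d})

theorem sum_image_eq {κ : Type} [Fintype κ] [DecidableEq κ] (n : ℕ) (y : ℕ → ℚ) (hy : y 0 = 1)
    (J : Finset κ) :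
    ∑ t ∈ (univ : Finset (Fin n → κ)).filter (fun t => univ.image t = J),
      ∏ c : κ, y (Fintype.card {i // t i = c}) = surjSum n J.card y := by
  classical
  let e : J ≃ Fin J.card := J.equivFin
  unfold surjSum
  symm
  refine Finset.sum_bij (fun s _ i => ((e.symm (s i) : J) : κ)) ?_ ?_ ?_ ?_
  · intro s hs
    rw [Finset.mem_filter] at hs
    rw [Finset.mem_filter]
    refine ⟨Finset.mem_univ _, ?_⟩
    ext c
    constructor
    · intro hc
      obtain ⟨i, _, rfl⟩ := Finset.mem_image.1 hc
      exact (e.symm (s i)).2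
    · intro hc
      obtain ⟨i, hi⟩ := hs.2 (e ⟨c, hc⟩)
      refine Finset.mem_image.2 ⟨i, Finset.mem_univ _, ?_⟩
      rw [hi, Equiv.symm_apply_apply]
  · intro s hs s' hs' h
    funext i
    have h1 := congrFun h i
    exact e.symm.injective (Subtype.ext h1)
  · intro t ht
    rw [Finset.mem_filter] at ht
    have hmem : ∀ i, t i ∈ J := fun i => ht.2 ▸ Finset.mem_image_of_mem t (Finset.mem_univ i)
    refine ⟨fun i => e ⟨t i, hmem i⟩, ?_, ?_⟩
    · rw [Finset.mem_filter]
      refine ⟨Finset.mem_univ _, ?_⟩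
      intro d
      have hd : ((e.symm d : J) : κ) ∈ univ.image t := by rw [ht.2]; exact (e.symm d).2
      obtain ⟨i, _, hi⟩ := Finset.mem_image.1 hd
      refine ⟨i, ?_⟩
      have h5 : (⟨t i, hmem i⟩ : J) = e.symm d := Subtype.ext hi
      show e ⟨t i, hmem i⟩ = d
      rw [h5, Equiv.apply_symm_apply]
    · funext i
      simp
  · intro s hs
    have h1 : ∏ c : κ, y (Fintype.card {i // ((e.symm (s i) : J) : κ) = c}) =
        ∏ c ∈ J, y (Fintype.card {i // ((e.symm (s i) : J) : κ) = c}) := by
      symm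
      apply Finset.prod_subset (Finset.subset_univ J)
      intro c _ hc
      have : IsEmpty {i // ((e.symm (s i) : J) : κ) = c} := by
        refine ⟨fun i => hc ?_⟩
        rw [← i.2]
        exact (e.symm (s i.1)).2
      rw [Fintype.card_eq_zero, hy]
    rw [h1, ← Finset.prod_coe_sort J, ← Equiv.prod_comp e.symm]
    refine Finset.prod_congr rfl fun d _ => ?_
    congr 1
    apply Fintype.card_congr
    refine Equiv.subtypeEquivRight fun i => ?_
    constructor
    · intro h
      rw [h]
    · intro h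
      exact e.symm.injective (Subtype.ext h)

theorem surjSum_zero_of_lt {n m : ℕ} (h : n < m) (y : ℕ → ℚ) : surjSum n m y = 0 := by
  classical
  unfold surjSum
  rw [Finset.filter_false_of_mem, Finset.sum_empty]
  intro s _ hs
  have := Fintype.card_le_of_surjective s hs
  simp at this
  omega

theorem sum_colour {κ : Type} [Fintype κ] [DecidableEq κ] (n : ℕ) (y : ℕ → ℚ) (hy : y 0 = 1) :
    ∑ t : Fin n → κ, ∏ c : κ, y (Fintype.card {i // t i = c}) =
      ∑ m ∈ range (n + 1), ((Fintype.card κ).choose m : ℚ) * surjSum n m y := by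
  classical
  have h1 : ∑ t : Fin n → κ, ∏ c : κ, y (Fintype.card {i // t i = c}) =
      ∑ J ∈ (univ : Finset κ).powerset,
        ∑ t ∈ (univ : Finset (Fin n → κ)).filter (fun t => univ.image t = J),
          ∏ c : κ, y (Fintype.card {i // t i = c}) := by
    symm
    apply Finset.sum_fiberwise_of_maps_to
    intro t _
    rw [Finset.mem_powerset]
    exact Finset.subset_univ _
  rw [h1]
  have h2 : ∑ J ∈ (univ : Finset κ).powerset,
        ∑ t ∈ (univ : Finset (Fin n → κ)).filter (fun t => univ.image t = J),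
          ∏ c : κ, y (Fintype.card {i // t i = c}) =
      ∑ J ∈ (univ : Finset κ).powerset, surjSum n J.card y :=
    Finset.sum_congr rfl fun J _ => sum_image_eq n y hy J
  rw [h2, Finset.sum_powerset_apply_card (fun m => surjSum n m y)]
  simp only [nsmul_eq_mul, Finset.card_univ]
  set k := Fintype.card κ with hk
  have h3 : ∑ m ∈ range (k + 1), (k.choose m : ℚ) * surjSum n m y =
      ∑ m ∈ range (max k n + 1), (k.choose m : ℚ) * surjSum n m y := by
    apply Finset.sum_subset
    · intro m hm
      rw [Finset.mem_range] at hm ⊢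
      omega
    · intro m _ hm
      rw [Finset.mem_range, not_lt] at hm
      rw [Nat.choose_eq_zero_of_lt (by omega)]
      simp
  have h4 : ∑ m ∈ range (n + 1), (k.choose m : ℚ) * surjSum n m y =
      ∑ m ∈ range (max k n + 1), (k.choose m : ℚ) * surjSum n m y := by
    apply Finset.sum_subset
    · intro m hm
      rw [Finset.mem_range] at hm ⊢
      omega
    · intro m _ hm
      rw [Finset.mem_range, not_lt] at hm
      rw [surjSum_zero_of_lt (by omega), mul_zero]
  rw [h3, h4]

theorem surjSum_one {n : ℕ} (hn : n ≠ 0) (y : ℕ → ℚ) : surjSum n 1 y = y n := by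
  classical
  unfold surjSum
  have h : (univ : Finset (Fin n → Fin 1)).filter (fun s => Function.Surjective s) = univ := by
    apply Finset.filter_true_of_mem
    intro s _ d
    exact ⟨⟨0, Nat.pos_of_ne_zero hn⟩, Subsingleton.elim _ _⟩
  rw [h]
  simp only [Finset.univ_unique, Finset.sum_singleton, Finset.prod_singleton]
  congr 1
  rw [Fintype.card_subtype, Finset.filter_true_of_mem]
  · simp
  · intro i _
    exact Subsingleton.elim _ _

/-- natural-number valued functions of a finite field given by a polynomial -/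
def IsPoly (f : ∀ (F : Type) [Field F] [Fintype F], ℚ) : Prop :=
  ∃ P : Polynomial ℚ, ∀ (F : Type) [Field F] [Fintype F], f F = P.eval (Fintype.card F : ℚ)

theorem IsPoly.const (a : ℚ) : IsPoly (fun F _ _ => a) :=
  ⟨Polynomial.C a, fun F _ _ => by simp⟩

theorem IsPoly.add {f g : ∀ (F : Type) [Field F] [Fintype F], ℚ} (hf : IsPoly f)
    (hg : IsPoly g) : IsPoly (fun F _ _ => f F + g F) := by
  obtain ⟨P, hP⟩ := hf
  obtain ⟨Q, hQ⟩ := hg
  exact ⟨P + Q, fun F _ _ => by
    show f F + g F = _
    rw [hP F, hQ F, Polynomial.eval_add]⟩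

theorem IsPoly.sub {f g : ∀ (F : Type) [Field F] [Fintype F], ℚ} (hf : IsPoly f)
    (hg : IsPoly g) : IsPoly (fun F _ _ => f F - g F) := by
  obtain ⟨P, hP⟩ := hf
  obtain ⟨Q, hQ⟩ := hg
  exact ⟨P - Q, fun F _ _ => by
    show f F - g F = _
    rw [hP F, hQ F, Polynomial.eval_sub]⟩

theorem IsPoly.mul {f g : ∀ (F : Type) [Field F] [Fintype F], ℚ} (hf : IsPoly f)
    (hg : IsPoly g) : IsPoly (fun F _ _ => f F * g F) := by
  obtain ⟨P, hP⟩ := hf
  obtain ⟨Q, hQ⟩ := hg
  exact ⟨P * Q, fun F _ _ => by
    show f F * g F = _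
    rw [hP F, hQ F, Polynomial.eval_mul]⟩

theorem IsPoly.sum {α : Type} (s : Finset α) (f : α → ∀ (F : Type) [Field F] [Fintype F], ℚ)
    (h : ∀ a ∈ s, IsPoly (f a)) : IsPoly (fun F _ _ => ∑ a ∈ s, f a F) := by
  classical
  induction s using Finset.induction_on with
  | empty => simpa using IsPoly.const 0
  | insert a s ha ih =>
    have h1 := (h a (Finset.mem_insert_self a s)).add
      (ih fun b hb => h b (Finset.mem_insert_of_mem hb))
    obtain ⟨P, hP⟩ := h1
    exact ⟨P, fun F _ _ => by
      rw [← hP F]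
      exact Finset.sum_insert ha⟩

theorem IsPoly.prod {α : Type} (s : Finset α) (f : α → ∀ (F : Type) [Field F] [Fintype F], ℚ)
    (h : ∀ a ∈ s, IsPoly (f a)) : IsPoly (fun F _ _ => ∏ a ∈ s, f a F) := by
  classical
  induction s using Finset.induction_on with
  | empty => simpa using IsPoly.const 1
  | insert a s ha ih =>
    have h1 := (h a (Finset.mem_insert_self a s)).mul
      (ih fun b hb => h b (Finset.mem_insert_of_mem hb))
    obtain ⟨P, hP⟩ := h1
    exact ⟨P, fun F _ _ => by
      rw [← hP F]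
      exact Finset.prod_insert ha⟩

theorem IsPoly.choose (m : ℕ) :
    IsPoly (fun F _ _ => ((Fintype.card F - 1).choose m : ℚ)) := by
  refine ⟨Polynomial.C ((m.factorial : ℚ)⁻¹) *
    (descPochhammer ℚ m).comp (Polynomial.X - Polynomial.C 1), fun F _ _ => ?_⟩
  have h1 : 1 ≤ Fintype.card F := Fintype.card_pos
  rw [Polynomial.eval_mul, Polynomial.eval_C, Polynomial.eval_comp, Polynomial.eval_sub,
    Polynomial.eval_X, Polynomial.eval_C]
  have h2 : ((Fintype.card F : ℚ) - 1) = ((Fintype.card F - 1 : ℕ) : ℚ) := by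
    push_cast [h1]
    ring
  rw [h2, descPochhammer_eval_eq_descFactorial, Nat.descFactorial_eq_factorial_mul_choose]
  push_cast
  have h3 : (m.factorial : ℚ) ≠ 0 := by exact_mod_cast Nat.factorial_ne_zero m
  field_simp

end Pool.Agent.HIG8
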