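import Pool.Agent.HIG8.Blk

set_option autoImplicit false
set_option linter.unusedSectionVars false
set_option linter.unusedVariables false

namespace Pool.Agent.HIG8

open Matrix

variable {ι : Type} [Fintype ι] [LinearOrder ι] {F : Type} [Field F]

theorem cj_glue [DecidableEq F] (t : ι → Fˣ) (A : ∀ c : Fˣ, Matrix (Fib t c) (Fib t c) F) :
    cj t (glue t A) = glue t A := by
  ext i j
  have e : cj t (glue t A) i j = (t i : F) * glue t A i j * (((t j)⁻¹ : Fˣ) : F) := by
    unfold cj dg
    rw [Matrix.mul_diagonal, Matrix.diagonal_mul]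
    rfl
  rw [e]
  by_cases h : t i = t j
  · rw [h, mul_comm ((t j : Fˣ) : F), mul_assoc, ← Units.val_mul, mul_inv_cancel, Units.val_one,
      mul_one]
  · rw [glue_ne t A h, mul_zero, zero_mul]

variable [Fintype F]

theorem card_fixed [DecidableEq F] (t : ι → Fˣ) :
    Nat.card (MulAction.fixedBy (Orb ι F) t) =
      ∏ c : Fˣ, cnt (Fib t c) (fun a : F => a = 1) good_one := by
  have h0 : ∀ c : Fˣ, cnt (Fib t c) (fun a : F => a = 1) good_one = Nat.card (Orb (Fib t c) F) :=
    fun c => rfl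
  simp only [h0]
  rw [← Nat.card_pi]
  symm
  let f : (∀ c : Fˣ, Orb (Fib t c) F) → MulAction.fixedBy (Orb ι F) t := fun x =>
    ⟨mkO (glue t (fun c => (mkO_surj (x c)).choose)), by
      rw [MulAction.mem_fixedBy, smul_mk, cj_glue]⟩
  refine Nat.card_congr (Equiv.ofBijective f ⟨?_, ?_⟩)
  · intro x y hxy
    have h1 : mkO (glue t (fun c => (mkO_surj (x c)).choose)) =
        mkO (glue t (fun c => (mkO_surj (y c)).choose)) := congrArg Subtype.val hxy
    rw [mkO_eq, glue_rel_iff] at h1
    funext c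
    rw [← (mkO_surj (x c)).choose_spec, ← (mkO_surj (y c)).choose_spec]
    exact mkO_eq.2 (h1 c)
  · rintro ⟨z, hz⟩
    obtain ⟨A, rfl⟩ := mkO_surj z
    rw [MulAction.mem_fixedBy, smul_mk, mkO_eq] at hz
    obtain ⟨B, hAB, hB⟩ := exists_block t hz
    refine ⟨fun c => mkO (blk t B c), ?_⟩
    apply Subtype.ext
    show mkO (glue t (fun c => (mkO_surj (mkO (blk t B c))).choose)) = mkO A
    rw [← mkO_eq] at hAB
    rw [hAB, mkO_eq]
    have h2 : glue t (blk t B) = B := glue_blk t B hB
    have h3 : Rel (fun a : F => a = 1) (glue t (fun c => (mkO_surj (mkO (blk t B c))).choose))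
        (glue t (blk t B)) := by
      rw [glue_rel_iff]
      intro c
      exact mkO_eq.1 (mkO_surj (mkO (blk t B c))).choose_spec
    rwa [h2] at h3

instance : Finite (Orb ι F) := Finite.of_surjective mkO mkO_surj

theorem identity [DecidableEq F] :
    (Fintype.card F - 1) ^ Fintype.card ι * cnt ι (fun a : F => a ≠ 0) good_ne =
      ∑ t : ι → Fˣ, ∏ c : Fˣ, cnt (Fib t c) (fun a : F => a = 1) good_one := by
  classical
  haveI : Fintype (Orb ι F) := Fintype.ofFinite _
  haveI : Fintype (Quotient (MulAction.orbitRel (ι → Fˣ) (Orb ι F))) := Fintype.ofFinite _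
  have h := MulAction.sum_card_fixedBy_eq_card_orbits_mul_card_group (ι → Fˣ) (Orb ι F)
  rw [← card_orb_orb]
  have hc : Fintype.card (ι → Fˣ) = (Fintype.card F - 1) ^ Fintype.card ι := by
    rw [Fintype.card_fun, Fintype.card_units]
  rw [← hc, mul_comm, Nat.card_eq_fintype_card]
  have h2 : ∑ t : ι → Fˣ, ∏ c : Fˣ, cnt (Fib t c) (fun a : F => a = 1) good_one =
      ∑ t : ι → Fˣ, Fintype.card (MulAction.fixedBy (Orb ι F) t) := by
    refine Finset.sum_congr rfl fun t _ => ?_
    rw [← card_fixed, Nat.card_eq_fintype_card]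
  rw [h2, h]

/-- the number of coadjoint orbits of the unitriangular group `U_n(F)` -/
noncomputable def YU (n : ℕ) (F : Type) [Field F] : ℕ :=
  Nat.card (Quot (fun A B : {A : Matrix (Fin n) (Fin n) F // ∀ i j, i ≤ j → A i j = 0} =>
        ∃ g : Matrix (Fin n) (Fin n) F,
          (∀ i j, j < i → g i j = 0) ∧ (∀ i, g i i = 1) ∧
          ∀ X : Matrix (Fin n) (Fin n) F, (∀ i j, j ≤ i → X i j = 0) →
            Matrix.trace (B.1 * X) = Matrix.trace (A.1 * (g⁻¹ * X * g))))

/-- the number of orbits of the group `B_n(F)` of invertible upper triangular matrices on the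
same space -/
noncomputable def XB (n : ℕ) (F : Type) [Field F] : ℕ :=
  Nat.card (Quot (fun A B : {A : Matrix (Fin n) (Fin n) F // ∀ i j, i ≤ j → A i j = 0} =>
        ∃ g : Matrix (Fin n) (Fin n) F,
          (∀ i j, j < i → g i j = 0) ∧ (∀ i, g i i ≠ 0) ∧
          ∀ X : Matrix (Fin n) (Fin n) F, (∀ i j, j ≤ i → X i j = 0) →
            Matrix.trace (B.1 * X) = Matrix.trace (A.1 * (g⁻¹ * X * g))))

theorem YU_eq (n : ℕ) (F : Type) [Field F] :
    YU n F = cnt (Fin n) (fun a : F => a = 1) good_one :=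
  card_quot (D := fun a : F => a = 1) good_one

theorem XB_eq (n : ℕ) (F : Type) [Field F] :
    XB n F = cnt (Fin n) (fun a : F => a ≠ 0) good_ne :=
  card_quot (D := fun a : F => a ≠ 0) good_ne

theorem cnt_eq_YU (κ : Type) [Fintype κ] [LinearOrder κ] (F : Type) [Field F] :
    cnt κ (fun a : F => a = 1) good_one = YU (Fintype.card κ) F := by
  rw [YU_eq]
  exact (cnt_congr (Fintype.orderIsoFinOfCardEq κ rfl) good_one).symm

theorem identity_fin (n : ℕ) (F : Type) [Field F] [Fintype F] [DecidableEq F] :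
    (Fintype.card F - 1) ^ n * XB n F =
      ∑ t : Fin n → Fˣ, ∏ c : Fˣ, YU (Fintype.card {i // t i = c}) F := by
  have h := identity (ι := Fin n) (F := F)
  rw [Fintype.card_fin, ← XB_eq] at h
  rw [h]
  refine Finset.sum_congr rfl fun t _ => Finset.prod_congr rfl fun c _ => ?_
  exact cnt_eq_YU (Fib t c) F

end Pool.Agent.HIG8
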