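import Pool.Agent.HIG8.Comb

set_option autoImplicit false
set_option linter.unusedSectionVars false
set_option linter.unusedVariables false

namespace Pool.Agent.HIG8

open Finset Polynomial

theorem exists_den (S : Polynomial ℚ) : ∃ N : ℕ, N ≠ 0 ∧ ∀ x : ℤ, ∃ z : ℤ,
    (N : ℚ) * S.eval (x : ℚ) = (z : ℚ) := by
  classical
  refine ⟨∏ i ∈ S.support, (S.coeff i).den, ?_, ?_⟩
  · exact Finset.prod_ne_zero_iff.2 fun i _ => (S.coeff i).den_ne_zero
  · intro x
    have h1 : ∀ i ∈ S.support, ∃ z : ℤ,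
        ((∏ i ∈ S.support, (S.coeff i).den : ℕ) : ℚ) * S.coeff i = (z : ℚ) := by
      intro i hi
      rw [← Finset.mul_prod_erase _ _ hi]
      refine ⟨(S.coeff i).num * ((∏ j ∈ S.support.erase i, (S.coeff j).den : ℕ) : ℤ), ?_⟩
      have h2 : ((S.coeff i).den : ℚ) * S.coeff i = (S.coeff i).num := by
        rw [mul_comm]
        exact Rat.mul_den_eq_num _
      push_cast
      calc ((S.coeff i).den : ℚ) * (∏ j ∈ S.support.erase i, ((S.coeff j).den : ℚ)) * S.coeff i
          = (((S.coeff i).den : ℚ) * S.coeff i) *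
            (∏ j ∈ S.support.erase i, ((S.coeff j).den : ℚ)) := by ring
        _ = _ := by rw [h2]
    choose! z hz using h1
    refine ⟨∑ i ∈ S.support, z i * x ^ i, ?_⟩
    rw [Polynomial.eval_eq_sum, Polynomial.sum_def, Finset.mul_sum]
    push_cast
    refine Finset.sum_congr rfl fun i hi => ?_
    rw [← hz i hi]
    push_cast
    ring

theorem IsPoly.of_mul {f : ∀ (F : Type) [Field F] [Fintype F], ℕ} (D : Polynomial ℚ)
    (hD : D.Monic) (hD0 : ∀ q : ℕ, 2 ≤ q → D.eval (q : ℚ) ≠ 0)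
    (h : IsPoly (fun F _ _ => D.eval (Fintype.card F : ℚ) * (f F : ℚ))) :
    IsPoly (fun F _ _ => (f F : ℚ)) := by
  obtain ⟨R, hR⟩ := h
  have hdec : R %ₘ D + D * (R /ₘ D) = R := Polynomial.modByMonic_add_div R D
  set r := R %ₘ D with hr
  set S := R /ₘ D with hS
  obtain ⟨N, hN, hNz⟩ := exists_den S
  have hdeg : r.degree < D.degree := Polynomial.degree_modByMonic_lt R hD
  have hlim : Filter.Tendsto (fun x : ℚ => (C (N : ℚ) * r).eval x / D.eval x) Filter.atTop
      (nhds 0) := by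
    apply Polynomial.div_tendsto_atTop_zero_of_degree_lt
    refine lt_of_le_of_lt ?_ hdeg
    refine (Polynomial.degree_mul_le _ _).trans ?_
    refine (add_le_add_left Polynomial.degree_C_le _).trans ?_
    rw [zero_add]
  have hev : ∀ᶠ x : ℚ in Filter.atTop, |(C (N : ℚ) * r).eval x / D.eval x| < 1 := by
    have := hlim.eventually (Metric.ball_mem_nhds (0 : ℚ) one_pos)
    filter_upwards [this] with x hx
    rw [dist_zero_right, ← Rat.norm_cast_real, Real.norm_eq_abs] at hx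
    exact_mod_cast hx
  obtain ⟨M, hM⟩ := Filter.eventually_atTop.1 hev
  have hroot : ∀ p : ℕ, p.Prime → M ≤ (p : ℚ) → r.eval (p : ℚ) = 0 := by
    intro p hp hpM
    haveI : Fact p.Prime := ⟨hp⟩
    have h1 : D.eval (Fintype.card (ZMod p) : ℚ) * (f (ZMod p) : ℚ) =
        R.eval (Fintype.card (ZMod p) : ℚ) := hR (ZMod p)
    rw [ZMod.card p] at h1
    have h2 := hM (p : ℚ) hpM
    have hD1 := hD0 p hp.two_le
    obtain ⟨z, hz⟩ := hNz (p : ℤ)
    have h3 : (C (N : ℚ) * r).eval (p : ℚ) / D.eval (p : ℚ) =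
        (((N : ℤ) * (f (ZMod p) : ℤ) - z : ℤ) : ℚ) := by
      have h4 : r.eval (p : ℚ) + D.eval (p : ℚ) * S.eval (p : ℚ) =
          D.eval (p : ℚ) * (f (ZMod p) : ℚ) := by
        rw [h1, ← hdec, Polynomial.eval_add, Polynomial.eval_mul]
      rw [div_eq_iff hD1, Polynomial.eval_mul, Polynomial.eval_C]
      push_cast
      push_cast at hz
      rw [← hz]
      linear_combination (N : ℚ) * h4
    rw [h3] at h2
    have h5 : |(N : ℤ) * (f (ZMod p) : ℤ) - z| < 1 := by exact_mod_cast h2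
    have h6 : (N : ℤ) * (f (ZMod p) : ℤ) - z = 0 := Int.abs_lt_one_iff.1 h5
    rw [h6, Int.cast_zero, div_eq_zero_iff, Polynomial.eval_mul, Polynomial.eval_C,
      mul_eq_zero] at h3
    rcases h3 with (h3 | h3) | h3
    · exact absurd (by exact_mod_cast h3) hN
    · exact h3
    · exact absurd h3 hD1
  have hr0 : r = 0 := by
    apply Polynomial.eq_zero_of_infinite_isRoot
    obtain ⟨m, hm⟩ := exists_nat_ge M
    have hinf : Set.Infinite {p : ℕ | p.Prime ∧ m ≤ p} := by
      rw [Set.infinite_iff_exists_gt]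
      intro a
      obtain ⟨p, hp1, hp2⟩ := Nat.exists_infinite_primes (max (a + 1) m)
      exact ⟨p, ⟨hp2, (le_max_right _ _).trans hp1⟩,
        lt_of_lt_of_le (Nat.lt_succ_self a) ((le_max_left _ _).trans hp1)⟩
    refine (hinf.image (f := fun p : ℕ => (p : ℚ)) (Nat.cast_injective.injOn)).mono ?_
    rintro _ ⟨p, ⟨hp, hmp⟩, rfl⟩
    exact hroot p hp (hm.trans (by exact_mod_cast hmp))
  refine ⟨S, fun F _ _ => ?_⟩
  have h1 : D.eval (Fintype.card F : ℚ) * (f F : ℚ) = R.eval (Fintype.card F : ℚ) := hR F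
  rw [← hdec, hr0, zero_add, Polynomial.eval_mul] at h1
  exact mul_left_cancel₀ (hD0 _ (Fintype.one_lt_card (α := F))) h1

end Pool.Agent.HIG8
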