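import Pool.Agent.HIG8.Divi
import Pool.Agent.HIG8.Count

set_option autoImplicit false
set_option linter.unusedSectionVars false
set_option linter.unusedVariables false

namespace Pool.Agent.HIG8

open Finset Polynomial

theorem YU_zero (F : Type) [Field F] : YU 0 F = 1 := by
  unfold YU
  rw [Nat.card_eq_one_iff_unique]
  constructor
  · constructor
    intro a b
    induction a using Quot.ind with
    | mk A =>
      induction b using Quot.ind with
      | mk B =>
        congr 1
        apply Subtype.ext
        ext i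
        exact i.elim0
  · exact ⟨Quot.mk _ ⟨0, fun i => i.elim0⟩⟩

theorem identity_choose (n : ℕ) (F : Type) [Field F] [Fintype F] :
    ((Fintype.card F : ℚ) - 1) ^ n * (XB n F : ℚ) =
      ∑ m ∈ range (n + 1), ((Fintype.card F - 1).choose m : ℚ) *
        surjSum n m (fun j => (YU j F : ℚ)) := by
  classical
  have h := identity_fin n F
  have h2 := sum_colour (κ := Fˣ) n (fun j => (YU j F : ℚ)) (by simp [YU_zero])
  rw [Fintype.card_units] at h2
  rw [← h2]
  have h1 : 1 ≤ Fintype.card F := Fintype.card_pos
  have h3 := congrArg (fun k : ℕ => (k : ℚ)) h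
  push_cast [h1] at h3
  exact h3

theorem surjSum_poly (n m : ℕ)
    (H : ∀ s : Fin n → Fin m, Function.Surjective s → ∀ d,
      IsPoly (fun F _ _ => (YU (Fintype.card {i // s i = d}) F : ℚ))) :
    IsPoly (fun F _ _ => surjSum n m (fun j => (YU j F : ℚ))) := by
  classical
  simp only [surjSum]
  exact IsPoly.sum _ _ fun s hs => IsPoly.prod _ _ fun d _ => H s (Finset.mem_filter.1 hs).2 d

theorem XB_poly_of (n : ℕ) (H : ∀ j ≤ n, IsPoly (fun F _ _ => (YU j F : ℚ))) :
    IsPoly (fun F _ _ => (XB n F : ℚ)) := by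
  refine IsPoly.of_mul (f := fun F _ _ => XB n F) ((X - C 1) ^ n) ((monic_X_sub_C 1).pow n) ?_ ?_
  · intro q hq
    rw [eval_pow, eval_sub, eval_X, eval_C]
    apply pow_ne_zero
    have : (2 : ℚ) ≤ q := by exact_mod_cast hq
    intro h
    linarith
  · have h1 : IsPoly (fun F _ _ => ∑ m ∈ range (n + 1), ((Fintype.card F - 1).choose m : ℚ) *
        surjSum n m (fun j => (YU j F : ℚ))) := by
      refine IsPoly.sum _ _ fun m _ => (IsPoly.choose m).mul (surjSum_poly n m fun s _ d => H _ ?_)
      refine (Fintype.card_subtype_le _).trans ?_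
      rw [Fintype.card_fin]
    obtain ⟨P, hP⟩ := h1
    refine ⟨P, fun F _ _ => ?_⟩
    have hP' : ∑ m ∈ range (n + 1), ((Fintype.card F - 1).choose m : ℚ) *
        surjSum n m (fun j => (YU j F : ℚ)) = P.eval (Fintype.card F : ℚ) := hP F
    show ((X - C 1 : ℚ[X]) ^ n).eval (Fintype.card F : ℚ) * (XB n F : ℚ) = _
    rw [← hP', ← identity_choose n F, eval_pow, eval_sub, eval_X, eval_C]

theorem YU_poly_of (n : ℕ) (H : ∀ j < n, IsPoly (fun F _ _ => (YU j F : ℚ)))
    (hX : IsPoly (fun F _ _ => (XB n F : ℚ))) :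
    IsPoly (fun F _ _ => (YU n F : ℚ)) := by
  classical
  rcases Nat.eq_zero_or_pos n with rfl | hn
  · exact ⟨C 1, fun F _ _ => by
      show (YU 0 F : ℚ) = _
      rw [YU_zero, eval_C]; norm_num⟩
  refine IsPoly.of_mul (f := fun F _ _ => YU n F) (X - C 1) (monic_X_sub_C 1) ?_ ?_
  · intro q hq
    rw [eval_sub, eval_X, eval_C]
    have : (2 : ℚ) ≤ q := by exact_mod_cast hq
    intro h
    linarith
  · have h1 : IsPoly (fun F _ _ => ∑ m ∈ (range (n + 1)).erase 1,
        ((Fintype.card F - 1).choose m : ℚ) * surjSum n m (fun j => (YU j F : ℚ))) := by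
      refine IsPoly.sum _ _ fun m hm => (IsPoly.choose m).mul
        (surjSum_poly n m fun s hs d => H _ ?_)
      have hm1 : m ≠ 1 := (Finset.mem_erase.1 hm).1
      rcases lt_or_eq_of_le ((Fintype.card_subtype_le (fun i => s i = d)).trans
        (Fintype.card_fin n).le) with h | h
      · exact h
      · exfalso
        apply hm1
        have hall : ∀ i, s i = d := by
          intro i
          by_contra hne
          have hlt := Fintype.card_subtype_lt (p := fun i => s i = d) hne
          rw [Fintype.card_fin] at hlt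
          omega
        have hsub : Subsingleton (Fin m) := by
          constructor
          intro a b
          obtain ⟨i, rfl⟩ := hs a
          obtain ⟨j, rfl⟩ := hs b
          rw [hall i, hall j]
        have hc : Fintype.card (Fin m) ≤ 1 := Fintype.card_le_one_iff_subsingleton.2 hsub
        rw [Fintype.card_fin] at hc
        have hpos : 0 < m := lt_of_le_of_lt (Nat.zero_le _) d.2
        omega
    obtain ⟨P, hP⟩ := h1
    obtain ⟨Q, hQ⟩ := hX
    refine ⟨(X - C 1) ^ n * Q - P, fun F _ _ => ?_⟩
    have e := identity_choose n F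
    rw [← Finset.add_sum_erase (range (n + 1)) _ (Finset.mem_range.2 (by omega : 1 < n + 1)),
      surjSum_one hn.ne', Nat.choose_one_right] at e
    have hq1 : 1 ≤ Fintype.card F := Fintype.card_pos
    push_cast [hq1] at e
    have hP' : ∑ m ∈ (range (n + 1)).erase 1,
        ((Fintype.card F - 1).choose m : ℚ) * surjSum n m (fun j => (YU j F : ℚ)) =
        P.eval (Fintype.card F : ℚ) := hP F
    have hQ' : (XB n F : ℚ) = Q.eval (Fintype.card F : ℚ) := hQ F
    show (X - C 1 : ℚ[X]).eval (Fintype.card F : ℚ) * (YU n F : ℚ) = _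
    simp only [eval_sub, eval_mul, eval_pow, eval_X, eval_C]
    rw [← hP', ← hQ', e]
    ring

theorem level (N : ℕ) :
    (∀ n ≤ N, IsPoly (fun F _ _ => (YU n F : ℚ))) ↔
      (∀ n ≤ N, IsPoly (fun F _ _ => (XB n F : ℚ))) := by
  constructor
  · intro H n hn
    exact XB_poly_of n fun j hj => H j (hj.trans hn)
  · intro H n
    induction n using Nat.strong_induction_on with
    | _ n ih =>
      intro hn
      exact YU_poly_of n (fun j hj => ih j hj (hj.le.trans hn)) (H n hn)

end Pool.Agent.HIG8
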