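import Pool.Agent.HIG8.Basic

set_option autoImplicit false
set_option linter.unusedSectionVars false
set_option linter.unusedVariables false

namespace Pool.Agent.HIG8

open Matrix

variable {ι : Type} [Fintype ι] [LinearOrder ι] {F : Type} [Field F]

/-- `A` and `B` define functionals on the strictly upper triangular matrices that lie in one orbit
of the group of upper triangular `g` whose diagonal entries satisfy `D`. -/
def Rel (D : F → Prop) (A B : Matrix ι ι F) : Prop :=
  ∃ g : Matrix ι ι F, Up g ∧ (∀ i, D (g i i)) ∧ Up (g * A - B * g)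

/-- the two diagonal conditions used -/
structure Good (D : F → Prop) : Prop where
  one : D 1
  mul : ∀ a b, D a → D b → D (a * b)
  inv : ∀ a, D a → D a⁻¹
  ne : ∀ a, D a → a ≠ 0

theorem good_one : Good (fun a : F => a = 1) where
  one := rfl
  mul := by intro a b ha hb; simp [ha, hb]
  inv := by intro a ha; simp [ha]
  ne := by intro a ha; rw [ha]; exact one_ne_zero

theorem good_ne : Good (fun a : F => a ≠ 0) where
  one := one_ne_zero
  mul := fun a b ha hb => mul_ne_zero ha hb
  inv := fun a ha => inv_ne_zero ha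
  ne := fun a ha => ha

theorem Rel.refl {D : F → Prop} (hD : Good D) (A : Matrix ι ι F) : Rel D A A :=
  ⟨1, Up.one, fun i => by rw [Matrix.one_apply_eq]; exact hD.one, by simpa using Up.zero⟩

theorem Rel.symm {D : F → Prop} (hD : Good D) {A B : Matrix ι ι F} (h : Rel D A B) :
    Rel D B A := by
  obtain ⟨g, hg, hd, hr⟩ := h
  have hne : ∀ i, g i i ≠ 0 := fun i => hD.ne _ (hd i)
  have hu := hg.isUnit_det hne
  refine ⟨g⁻¹, hg.inv hne, fun i => by rw [hg.inv_diag hne]; exact hD.inv _ (hd i), ?_⟩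
  have h1 : g⁻¹ * B - A * g⁻¹ = -(g⁻¹ * (g * A - B * g) * g⁻¹) := by
    have e1 : g⁻¹ * g = 1 := Matrix.nonsing_inv_mul g hu
    have e2 : g * g⁻¹ = 1 := Matrix.mul_nonsing_inv g hu
    calc g⁻¹ * B - A * g⁻¹ = g⁻¹ * B * (g * g⁻¹) - (g⁻¹ * g) * A * g⁻¹ := by
          rw [e1, e2, Matrix.mul_one, Matrix.one_mul]
      _ = -(g⁻¹ * (g * A - B * g) * g⁻¹) := by
          simp only [Matrix.mul_sub, Matrix.sub_mul, Matrix.mul_assoc, neg_sub]
  rw [h1]
  exact (((hg.inv hne).mul hr).mul (hg.inv hne)).neg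

theorem Rel.trans {D : F → Prop} (hD : Good D) {A B C : Matrix ι ι F} (h : Rel D A B)
    (h' : Rel D B C) : Rel D A C := by
  obtain ⟨g, hg, hd, hr⟩ := h
  obtain ⟨k, hk, hd', hr'⟩ := h'
  refine ⟨k * g, hk.mul hg, fun i => by rw [hk.mul_diag hg]; exact hD.mul _ _ (hd' i) (hd i), ?_⟩
  have h1 : k * g * A - C * (k * g) = k * (g * A - B * g) + (k * B - C * k) * g := by
    simp only [Matrix.mul_sub, Matrix.sub_mul, Matrix.mul_assoc]
    abel
  rw [h1]
  exact (hk.mul hr).add (hr'.mul hg)

/-- the setoid -/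
def st (ι : Type) [Fintype ι] [LinearOrder ι] {F : Type} [Field F] (D : F → Prop) (hD : Good D) :
    Setoid (Matrix ι ι F) :=
  ⟨Rel D, ⟨Rel.refl hD, Rel.symm hD, Rel.trans hD⟩⟩

/-- number of orbits, on a general index set -/
noncomputable def cnt (ι : Type) [Fintype ι] [LinearOrder ι] {F : Type} [Field F] (D : F → Prop)
    (hD : Good D) : ℕ := Nat.card (Quotient (st ι D hD))

/-- same class mod upper triangular matrices -/
theorem rel_of_sub {D : F → Prop} (hD : Good D) {A B : Matrix ι ι F} (h : Up (A - B)) :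
    Rel D A B :=
  ⟨1, Up.one, fun i => by rw [Matrix.one_apply_eq]; exact hD.one, by simpa using h⟩

/-- the strictly lower part -/
def low (A : Matrix ι ι F) : Matrix ι ι F := Matrix.of fun i j => if j < i then A i j else 0

theorem up_sub_low (A : Matrix ι ι F) : Up (A - low A) := by
  intro i j hij
  simp [low, hij]

theorem low_zero (A : Matrix ι ι F) (i j : ι) (h : i ≤ j) : low A i j = 0 := by
  simp [low, not_lt.2 h]

/-- the trace form of the relation -/
theorem trace_iff {D : F → Prop} (hD : Good D) (A B : Matrix ι ι F)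
    (g : Matrix ι ι F) (hg : Up g) (hd : ∀ i, D (g i i)) :
    Up (g * A - B * g) ↔ ∀ X : Matrix ι ι F, (∀ i j, j ≤ i → X i j = 0) →
      Matrix.trace (B * X) = Matrix.trace (A * (g⁻¹ * X * g)) := by
  have hne : ∀ i, g i i ≠ 0 := fun i => hD.ne _ (hd i)
  have hu := hg.isUnit_det hne
  have e1 : g⁻¹ * g = 1 := Matrix.nonsing_inv_mul g hu
  have e2 : g * g⁻¹ = 1 := Matrix.mul_nonsing_inv g hu
  have key : ∀ X : Matrix ι ι F, Matrix.trace (A * (g⁻¹ * X * g)) =
      Matrix.trace (g * A * g⁻¹ * X) := by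
    intro X
    rw [← Matrix.mul_assoc, Matrix.trace_mul_comm]
    simp only [Matrix.mul_assoc]
  constructor
  · intro h X hX
    rw [key, ← sub_eq_zero, ← Matrix.trace_sub, ← Matrix.sub_mul]
    have hM : Up (B - g * A * g⁻¹) := by
      have : B - g * A * g⁻¹ = -((g * A - B * g) * g⁻¹) := by
        rw [Matrix.sub_mul, Matrix.mul_assoc B, e2, Matrix.mul_one, neg_sub]
      rw [this]
      exact (h.mul (hg.inv hne)).neg
    rw [Matrix.trace]
    refine Finset.sum_eq_zero fun i _ => ?_
    rw [Matrix.diag_apply, Matrix.mul_apply]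
    refine Finset.sum_eq_zero fun k _ => ?_
    rcases lt_or_ge k i with h1 | h1
    · rw [hM i k h1, zero_mul]
    · rw [hX k i h1, mul_zero]
  · intro h
    have hM : Up (B - g * A * g⁻¹) := by
      intro i j hij
      have h2 := h (Matrix.single j i 1) (by
        intro a b hab
        rw [Matrix.single_apply]
        split_ifs with h3
        · obtain ⟨rfl, rfl⟩ := h3
          exact absurd hij (not_lt.2 hab)
        · rfl)
      rw [key, ← sub_eq_zero, ← Matrix.trace_sub, ← Matrix.sub_mul,
        Matrix.trace_mul_single] at h2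
      simpa using h2
    have : g * A - B * g = -((B - g * A * g⁻¹) * g) := by
      rw [Matrix.sub_mul, Matrix.mul_assoc (g * A), e1, Matrix.mul_one, neg_sub]
    rw [this]
    exact (hM.mul hg).neg

/-- number of orbits written as in the problem -/
theorem card_quot {D : F → Prop} (hD : Good D) :
    Nat.card (Quot (fun A B : {A : Matrix ι ι F // ∀ i j, i ≤ j → A i j = 0} =>
        ∃ g : Matrix ι ι F,
          (∀ i j, j < i → g i j = 0) ∧ (∀ i, D (g i i)) ∧
          ∀ X : Matrix ι ι F, (∀ i j, j ≤ i → X i j = 0) →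
            Matrix.trace (B.1 * X) = Matrix.trace (A.1 * (g⁻¹ * X * g)))) = cnt ι D hD := by
  have hrel : ∀ A B : {A : Matrix ι ι F // ∀ i j, i ≤ j → A i j = 0}, (∃ g : Matrix ι ι F,
          (∀ i j, j < i → g i j = 0) ∧ (∀ i, D (g i i)) ∧
          ∀ X : Matrix ι ι F, (∀ i j, j ≤ i → X i j = 0) →
            Matrix.trace (B.1 * X) = Matrix.trace (A.1 * (g⁻¹ * X * g))) ↔ Rel D A.1 B.1 := by
    intro A B
    constructor
    · rintro ⟨g, hg, hd, h⟩
      exact ⟨g, hg, hd, (trace_iff hD A.1 B.1 g hg hd).2 h⟩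
    · rintro ⟨g, hg, hd, h⟩
      exact ⟨g, hg, hd, (trace_iff hD A.1 B.1 g hg hd).1 h⟩
  unfold cnt
  refine Nat.card_congr (Equiv.ofBijective
    (Quot.lift (fun A => (Quotient.mk (st ι D hD) A.1)) ?_) ⟨?_, ?_⟩)
  · intro A B h
    exact Quotient.sound ((hrel A B).1 h)
  · intro a b
    induction a using Quot.ind with | _ A
    induction b using Quot.ind with | _ B
    intro h
    exact Quot.sound ((hrel A B).2 (Quotient.exact h))
  · intro a
    induction a using Quotient.ind with | _ A
    refine ⟨Quot.mk _ ⟨low A, low_zero A⟩, ?_⟩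
    exact Quotient.sound (Rel.symm hD (rel_of_sub hD (up_sub_low A)))

/-- invariance under order isomorphisms -/
theorem cnt_congr {κ : Type} [Fintype κ] [LinearOrder κ] (e : ι ≃o κ) {D : F → Prop}
    (hD : Good D) : cnt ι D hD = cnt κ D hD := by
  unfold cnt
  have up_re : ∀ M : Matrix ι ι F, Up M ↔ Up (Matrix.reindex e.toEquiv e.toEquiv M) := by
    intro M
    constructor
    · intro h i j hij
      exact h _ _ (e.symm.lt_iff_lt.2 hij)
    · intro h i j hij
      have := h (e i) (e j) (e.lt_iff_lt.2 hij)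
      simpa using this
  have hrel : ∀ A B : Matrix ι ι F, Rel D A B ↔
      Rel D (Matrix.reindex e.toEquiv e.toEquiv A) (Matrix.reindex e.toEquiv e.toEquiv B) := by
    have re_mul : ∀ A B : Matrix ι ι F, Matrix.reindex e.toEquiv e.toEquiv (A * B) =
        Matrix.reindex e.toEquiv e.toEquiv A * Matrix.reindex e.toEquiv e.toEquiv B := by
      intro A B
      rw [Matrix.reindex_apply, Matrix.reindex_apply, Matrix.reindex_apply]
      exact (Matrix.submatrix_mul_equiv A B _ e.toEquiv.symm _).symm
    have re_sub : ∀ A B : Matrix ι ι F, Matrix.reindex e.toEquiv e.toEquiv (A - B) =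
        Matrix.reindex e.toEquiv e.toEquiv A - Matrix.reindex e.toEquiv e.toEquiv B := by
      intro A B
      rfl
    intro A B
    constructor
    · rintro ⟨g, hg, hd, h⟩
      refine ⟨Matrix.reindex e.toEquiv e.toEquiv g, (up_re g).1 hg, fun i => ?_, ?_⟩
      · simpa using hd (e.symm i)
      · rw [← re_mul, ← re_mul, ← re_sub]
        exact (up_re _).1 h
    · rintro ⟨g, hg, hd, h⟩
      obtain ⟨g', rfl⟩ := (Matrix.reindex e.toEquiv e.toEquiv).surjective g
      refine ⟨g', (up_re g').2 hg, fun i => ?_, ?_⟩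
      · simpa using hd (e i)
      · rw [← re_mul, ← re_mul, ← re_sub] at h
        exact (up_re _).2 h
  exact Nat.card_congr (Quotient.congr (Matrix.reindex e.toEquiv e.toEquiv) hrel)

end Pool.Agent.HIG8
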