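import Pool.Agent.HIG8.Tor

set_option autoImplicit false
set_option linter.unusedSectionVars false
set_option linter.unusedVariables false

namespace Pool.Agent.HIG8

open Matrix

variable {ι : Type} [Fintype ι] [LinearOrder ι] {F : Type} [Field F]

/-- the algebra attached to `A` -/
def InE (A a : Matrix ι ι F) : Prop := Up a ∧ Up (a * A - A * a)

theorem InE.mul {A a b : Matrix ι ι F} (ha : InE A a) (hb : InE A b) : InE A (a * b) := by
  refine ⟨ha.1.mul hb.1, ?_⟩
  have h : a * b * A - A * (a * b) = a * (b * A - A * b) + (a * A - A * a) * b := by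
    simp only [Matrix.mul_sub, Matrix.sub_mul, Matrix.mul_assoc]
    abel
  rw [h]
  exact (ha.1.mul hb.2).add (ha.2.mul hb.1)

theorem InE.one (A : Matrix ι ι F) : InE A 1 := by
  refine ⟨Up.one, ?_⟩
  simpa using Up.zero

theorem InE.pow {A a : Matrix ι ι F} (ha : InE A a) (n : ℕ) : InE A (a ^ n) := by
  induction n with
  | zero => simpa using InE.one A
  | succ n ih => rw [pow_succ]; exact ih.mul ha

theorem up_zero_diag_nil {w : Matrix ι ι F} (hw : Up w) (hd : ∀ i, w i i = 0) :
    w ^ (Fintype.card ι) = 0 := by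
  have h1 : w.charpoly = Polynomial.X ^ (Fintype.card ι) := by
    rw [Matrix.charpoly_of_isUpperTriangular w hw.bt]
    simp [hd]
  have h2 := Matrix.aeval_self_charpoly w
  rw [h1] at h2
  simpa using h2

variable [Fintype F]

theorem sub_pow_q [Nonempty ι] (x y : Matrix ι ι F) (h : Commute x y) :
    (x - y) ^ (Fintype.card F) = x ^ (Fintype.card F) - y ^ (Fintype.card F) := by
  obtain ⟨p, hp⟩ := CharP.exists F
  obtain ⟨k, hprime, hk⟩ := FiniteField.card F p
  haveI := Fact.mk hprime
  rw [hk]
  exact sub_pow_char_pow_of_commute _ _ h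

theorem sub_pow_qm [Nonempty ι] (x y : Matrix ι ι F) (h : Commute x y) (m : ℕ) :
    (x - y) ^ (Fintype.card F ^ m) = x ^ (Fintype.card F ^ m) - y ^ (Fintype.card F ^ m) := by
  induction m with
  | zero => simp
  | succ m ih => rw [pow_succ, pow_mul, ih, sub_pow_q _ _ (h.pow_pow _ _), ← pow_mul, ← pow_mul]

/-- a power with `a' ^ q = a'` -/
theorem exists_semisimple [Nonempty ι] {A a : Matrix ι ι F} (ha : InE A a) :
    ∃ b : Matrix ι ι F, InE A b ∧ (∀ i, b i i = a i i) ∧ b ^ (Fintype.card F) = b := by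
  classical
  set q := Fintype.card F with hq
  set n := Fintype.card ι with hn
  have hq1 : 1 < q := Fintype.one_lt_card
  have hqn : n ≤ q ^ n := (Nat.lt_pow_self hq1).le
  refine ⟨a ^ (q ^ n), ha.pow _, fun i => ?_, ?_⟩
  · rw [ha.1.pow_diag, hq, FiniteField.pow_card_pow]
  · have h1 : (a ^ q - a) ^ n = 0 := by
      apply up_zero_diag_nil ((ha.1.pow q).sub ha.1)
      intro i
      rw [Matrix.sub_apply, ha.1.pow_diag, hq, FiniteField.pow_card, sub_self]
    have h2 : (a ^ q - a) ^ (q ^ n) = 0 := by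
      obtain ⟨c, hc⟩ := Nat.exists_eq_add_of_le hqn
      rw [hc, pow_add, h1, zero_mul]
    rw [sub_pow_qm _ _ (Commute.pow_self a q)] at h2
    rw [← pow_mul, mul_comm, pow_mul]
    exact sub_eq_zero.1 h2

/-- conjugating a semisimple upper triangular matrix to its diagonal -/
theorem exists_diagonalize [Nonempty ι] (t : ι → Fˣ) {b : Matrix ι ι F} (hb : Up b)
    (hd : ∀ i, b i i = (t i : F)) (hq : b ^ (Fintype.card F) = b) :
    ∃ g : Matrix ι ι F, Up g ∧ (∀ i, g i i = 1) ∧ g * b = dg t * g := by
  classical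
  set q := Fintype.card F with hqq
  have hq1 : 1 < q := Fintype.one_lt_card
  let E : F → Matrix ι ι F := fun c => 1 - (b - c • (1 : Matrix ι ι F)) ^ (q - 1)
  let P : F → Matrix ι ι F := fun c => Matrix.diagonal fun i => if (t i : F) = c then 1 else 0
  have hsub : ∀ c : F, Up (b - c • (1 : Matrix ι ι F)) := by
    intro c
    refine hb.sub ?_
    intro i j hij
    simp [Matrix.one_apply_ne (ne_of_gt hij)]
  have hE : ∀ c, Up (E c) := fun c => Up.one.sub ((hsub c).pow _)
  have hbc : ∀ c : F, (b - c • (1 : Matrix ι ι F)) * E c = 0 := by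
    intro c
    have h1 : (b - c • (1 : Matrix ι ι F)) ^ q = b - c • (1 : Matrix ι ι F) := by
      have hcomm : Commute b (c • (1 : Matrix ι ι F)) := (Commute.one_right b).smul_right c
      rw [hqq, sub_pow_q _ _ hcomm, ← hqq, hq, smul_pow, one_pow, hqq, FiniteField.pow_card]
    show (b - c • (1 : Matrix ι ι F)) * (1 - (b - c • (1 : Matrix ι ι F)) ^ (q - 1)) = 0
    rw [mul_sub, mul_one, ← pow_succ', Nat.sub_add_cancel hq1.le, h1, sub_self]
  have hEb : ∀ c : F, E c * b = c • E c := by
    intro c
    have hcomm : Commute b (E c) := by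
      show Commute b (1 - (b - c • (1 : Matrix ι ι F)) ^ (q - 1))
      refine (Commute.one_right b).sub_right (Commute.pow_right ?_ _)
      exact (Commute.refl b).sub_right ((Commute.one_right b).smul_right c)
    have h1 := hbc c
    rw [sub_mul, smul_mul_assoc, one_mul, sub_eq_zero] at h1
    rw [← hcomm.eq, h1]
  have hdP : ∀ c : F, dg t * P c = c • P c := by
    intro c
    show Matrix.diagonal _ * Matrix.diagonal _ = c • Matrix.diagonal _
    rw [Matrix.diagonal_mul_diagonal, ← Matrix.diagonal_smul]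
    congr 1
    funext i
    by_cases h : (t i : F) = c
    · simp [h]
    · simp [h]
  have hP : ∀ c, Up (P c) := fun c => Up.diagonal _
  have hgU : Up (∑ c : F, P c * E c) :=
    Up.sum _ _ fun c _ => (hP c).mul (hE c)
  refine ⟨∑ c : F, P c * E c, hgU, fun i => ?_, ?_⟩
  · rw [Matrix.sum_apply, Finset.sum_eq_single (t i : F)]
    · rw [(hP (t i : F)).mul_diag (hE _)]
      have h3 : E (t i : F) i i = 1 := by
        show (1 - (b - (t i : F) • (1 : Matrix ι ι F)) ^ (q - 1)) i i = 1
        rw [Matrix.sub_apply, (hsub _).pow_diag, Matrix.one_apply_eq, Matrix.sub_apply,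
          Matrix.smul_apply, Matrix.one_apply_eq, hd i]
        have : q - 1 ≠ 0 := by omega
        simp [this]
      rw [h3]
      simp [P]
    · intro c _ hc
      rw [(hP c).mul_diag (hE _)]
      simp [P, Ne.symm hc]
    · intro h
      exact absurd (Finset.mem_univ _) h
  · rw [Finset.sum_mul, Finset.mul_sum]
    refine Finset.sum_congr rfl fun c _ => ?_
    rw [Matrix.mul_assoc, hEb, ← Matrix.mul_assoc, hdP, Matrix.mul_smul, Matrix.smul_mul]

/-- a stable orbit contains a functional supported on the blocks -/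
theorem exists_block (t : ι → Fˣ) {A : Matrix ι ι F} (h : Rel (fun a : F => a = 1) (cj t A) A) :
    ∃ B : Matrix ι ι F, Rel (fun a : F => a = 1) A B ∧ ∀ i j, t i ≠ t j → B i j = 0 := by
  classical
  rcases isEmpty_or_nonempty ι with he | hne
  · exact ⟨A, Rel.refl good_one A, fun i => (he.false i).elim⟩
  obtain ⟨u, hu, hud, hr⟩ := h
  have ha : InE A (u * dg t) := by
    refine ⟨hu.mul (up_dg t), ?_⟩
    have e : u * dg t * A - A * (u * dg t) = (u * cj t A - A * u) * dg t := by
      unfold cj
      calc u * dg t * A - A * (u * dg t)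
          = u * (dg t * A * (dg t⁻¹ * dg t)) - A * u * dg t := by
            rw [dg_inv_mul, Matrix.mul_one]
            simp only [Matrix.mul_assoc]
        _ = (u * (dg t * A * dg t⁻¹) - A * u) * dg t := by
            simp only [Matrix.sub_mul, Matrix.mul_assoc]
    rw [e]
    exact hr.mul (up_dg t)
  obtain ⟨b, hb, hbd, hbq⟩ := exists_semisimple ha
  have hbt : ∀ i, b i i = (t i : F) := by
    intro i
    rw [hbd i, hu.mul_diag (up_dg t), dg_diag, show u i i = 1 from hud i, one_mul]
  obtain ⟨g, hg, hgd, hgb⟩ := exists_diagonalize t hb.1 hbt hbq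
  have hne' : ∀ i, g i i ≠ 0 := fun i => by rw [hgd i]; exact one_ne_zero
  have hunit := hg.isUnit_det hne'
  have e1 : g⁻¹ * g = 1 := Matrix.nonsing_inv_mul g hunit
  have e2 : g * g⁻¹ = 1 := Matrix.mul_nonsing_inv g hunit
  have hgi : g⁻¹ * dg t = b * g⁻¹ := by
    calc g⁻¹ * dg t = g⁻¹ * (dg t * g) * g⁻¹ := by
          rw [Matrix.mul_assoc, Matrix.mul_assoc, e2, Matrix.mul_one]
      _ = b * g⁻¹ := by rw [← hgb, ← Matrix.mul_assoc, e1, Matrix.one_mul]
  refine ⟨low (g * A * g⁻¹), ⟨g, hg, hgd, ?_⟩, ?_⟩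
  · have e : g * A - low (g * A * g⁻¹) * g = (g * A * g⁻¹ - low (g * A * g⁻¹)) * g := by
      rw [Matrix.sub_mul, Matrix.mul_assoc (g * A), e1, Matrix.mul_one]
    rw [e]
    exact (up_sub_low _).mul hg
  · intro i j hij
    by_cases hlt : j < i
    · have hU : Up (dg t * (g * A * g⁻¹) - g * A * g⁻¹ * dg t) := by
        have e : dg t * (g * A * g⁻¹) - g * A * g⁻¹ * dg t = g * (b * A - A * b) * g⁻¹ := by
          calc dg t * (g * A * g⁻¹) - g * A * g⁻¹ * dg t
              = (dg t * g) * A * g⁻¹ - g * A * (g⁻¹ * dg t) := by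
                simp only [Matrix.mul_assoc]
            _ = (g * b) * A * g⁻¹ - g * A * (b * g⁻¹) := by rw [hgb, hgi]
            _ = g * (b * A - A * b) * g⁻¹ := by
                simp only [Matrix.mul_sub, Matrix.sub_mul, Matrix.mul_assoc]
        rw [e]
        exact (hg.mul hb.2).mul (hg.inv hne')
      have h1 := hU i j hlt
      have h2 : ((t i : F) - (t j : F)) * (g * A * g⁻¹) i j = 0 := by
        rw [Matrix.sub_apply] at h1
        unfold dg at h1
        rw [Matrix.diagonal_mul, Matrix.mul_diagonal] at h1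
        rw [sub_mul, mul_comm (t j : F)]
        exact h1
      have h3 : (t i : F) - (t j : F) ≠ 0 := by
        rw [sub_ne_zero]
        intro h
        exact hij (Units.ext h)
      have h4 : (g * A * g⁻¹) i j = 0 := (mul_eq_zero.1 h2).resolve_left h3
      show (low (g * A * g⁻¹)) i j = 0
      simp only [low, Matrix.of_apply]
      rw [if_pos hlt]
      exact h4
    · exact low_zero _ i j (not_lt.1 hlt)

end Pool.Agent.HIG8
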