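import Pool.Agent.HIG8.Rel

set_option autoImplicit false
set_option linter.unusedSectionVars false
set_option linter.unusedVariables false

namespace Pool.Agent.HIG8

open Matrix

variable {ι : Type} [Fintype ι] [LinearOrder ι] {F : Type} [Field F]

/-- diagonal matrix of units -/
def dg (t : ι → Fˣ) : Matrix ι ι F := Matrix.diagonal fun i => (t i : F)

theorem dg_mul (s t : ι → Fˣ) : dg (s * t) = dg s * dg t := by
  unfold dg
  rw [Matrix.diagonal_mul_diagonal]
  congr 1

theorem dg_one : dg (1 : ι → Fˣ) = 1 := by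
  unfold dg
  simp

theorem dg_inv_mul (t : ι → Fˣ) : dg t⁻¹ * dg t = 1 := by
  rw [← dg_mul, inv_mul_cancel, dg_one]

theorem dg_mul_inv (t : ι → Fˣ) : dg t * dg t⁻¹ = 1 := by
  rw [← dg_mul, mul_inv_cancel, dg_one]

theorem up_dg (t : ι → Fˣ) : Up (dg t) := Up.diagonal _

theorem dg_diag (t : ι → Fˣ) (i : ι) : dg t i i = (t i : F) := by
  simp [dg]

/-- conjugation -/
def cj (t : ι → Fˣ) (A : Matrix ι ι F) : Matrix ι ι F := dg t * A * dg t⁻¹

theorem cj_mul (s t : ι → Fˣ) (A : Matrix ι ι F) : cj (s * t) A = cj s (cj t A) := by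
  unfold cj
  rw [_root_.mul_inv_rev, dg_mul, dg_mul]
  simp only [Matrix.mul_assoc]

theorem cj_one (A : Matrix ι ι F) : cj 1 A = A := by
  unfold cj
  rw [inv_one, dg_one, Matrix.one_mul, Matrix.mul_one]

theorem cj_rel (t : ι → Fˣ) {A B : Matrix ι ι F} (h : Rel (fun a : F => a = 1) A B) :
    Rel (fun a : F => a = 1) (cj t A) (cj t B) := by
  obtain ⟨g, hg, hd, hr⟩ := h
  have hU : Up (dg t * g * dg t⁻¹) := ((up_dg t).mul hg).mul (up_dg t⁻¹)
  refine ⟨dg t * g * dg t⁻¹, hU, fun i => ?_, ?_⟩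
  · show (dg t * g * dg t⁻¹) i i = 1
    rw [((up_dg t).mul hg).mul_diag (up_dg t⁻¹), (up_dg t).mul_diag hg, dg_diag, dg_diag,
      show g i i = 1 from hd i]
    simp
  · have e : dg t * g * dg t⁻¹ * cj t A - cj t B * (dg t * g * dg t⁻¹) =
        dg t * (g * A - B * g) * dg t⁻¹ := by
      unfold cj
      calc dg t * g * dg t⁻¹ * (dg t * A * dg t⁻¹) - dg t * B * dg t⁻¹ * (dg t * g * dg t⁻¹)
          = dg t * g * (dg t⁻¹ * dg t) * A * dg t⁻¹ - dg t * B * (dg t⁻¹ * dg t) * g * dg t⁻¹ := by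
            simp only [Matrix.mul_assoc]
        _ = dg t * (g * A - B * g) * dg t⁻¹ := by
            rw [dg_inv_mul]
            simp only [Matrix.mul_sub, Matrix.sub_mul, Matrix.mul_one, Matrix.mul_assoc]
    rw [e]
    exact ((up_dg t).mul hr).mul (up_dg t⁻¹)

variable (ι F) in
/-- the set of orbits of the unitriangular group -/
def Orb : Type := Quotient (st ι (fun a : F => a = 1) good_one)

/-- the class of a matrix -/
def mkO (A : Matrix ι ι F) : Orb ι F := Quotient.mk (st ι (fun a : F => a = 1) good_one) A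

theorem mkO_eq {A B : Matrix ι ι F} : mkO A = mkO B ↔ Rel (fun a : F => a = 1) A B :=
  ⟨fun h => Quotient.exact h, fun h => Quotient.sound h⟩

theorem mkO_surj (x : Orb ι F) : ∃ A, mkO A = x := by
  induction x using Quotient.ind with | _ A
  exact ⟨A, rfl⟩

instance : MulAction (ι → Fˣ) (Orb ι F) where
  smul t x := Quotient.map (cj t) (fun _ _ h => cj_rel t h) x
  one_smul x := by
    obtain ⟨A, rfl⟩ := mkO_surj x
    exact congrArg (Quotient.mk _) (cj_one A)
  mul_smul s t x := by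
    obtain ⟨A, rfl⟩ := mkO_surj x
    exact congrArg (Quotient.mk _) (cj_mul s t A)

theorem smul_mk (t : ι → Fˣ) (A : Matrix ι ι F) : t • mkO A = mkO (cj t A) := rfl

theorem rel_ne_iff (A B : Matrix ι ι F) : Rel (fun a : F => a ≠ 0) A B ↔
    ∃ t : ι → Fˣ, Rel (fun a : F => a = 1) (cj t A) B := by
  constructor
  · rintro ⟨g, hg, hd, hr⟩
    refine ⟨fun i => Units.mk0 (g i i) (hd i), ?_⟩
    set t : ι → Fˣ := fun i => Units.mk0 (g i i) (hd i) with ht
    have hU : Up (g * dg t⁻¹) := hg.mul (up_dg t⁻¹)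
    refine ⟨g * dg t⁻¹, hU, fun i => ?_, ?_⟩
    · show (g * dg t⁻¹) i i = 1
      rw [hg.mul_diag (up_dg t⁻¹), dg_diag]
      simp [ht, hd i]
    · have e : g * dg t⁻¹ * cj t A - B * (g * dg t⁻¹) = (g * A - B * g) * dg t⁻¹ := by
        unfold cj
        calc g * dg t⁻¹ * (dg t * A * dg t⁻¹) - B * (g * dg t⁻¹)
            = g * (dg t⁻¹ * dg t) * A * dg t⁻¹ - B * g * dg t⁻¹ := by
              simp only [Matrix.mul_assoc]
          _ = (g * A - B * g) * dg t⁻¹ := by
              rw [dg_inv_mul, Matrix.mul_one, Matrix.sub_mul]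
      rw [e]
      exact hr.mul (up_dg t⁻¹)
  · rintro ⟨t, g, hg, hd, hr⟩
    have hU : Up (g * dg t) := hg.mul (up_dg t)
    refine ⟨g * dg t, hU, fun i => ?_, ?_⟩
    · show (g * dg t) i i ≠ 0
      rw [hg.mul_diag (up_dg t), dg_diag, show g i i = 1 from hd i, one_mul]
      exact (t i).ne_zero
    · have e : g * dg t * A - B * (g * dg t) = (g * cj t A - B * g) * dg t := by
        unfold cj
        calc g * dg t * A - B * (g * dg t)
            = g * (dg t * A * (dg t⁻¹ * dg t)) - B * g * dg t := by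
              rw [dg_inv_mul, Matrix.mul_one]
              simp only [Matrix.mul_assoc]
          _ = (g * (dg t * A * dg t⁻¹) - B * g) * dg t := by
              simp only [Matrix.sub_mul, Matrix.mul_assoc]
      rw [e]
      exact hr.mul (up_dg t)

theorem card_orb_orb : Nat.card (Quotient (MulAction.orbitRel (ι → Fˣ) (Orb ι F))) =
    cnt ι (fun a : F => a ≠ 0) good_ne := by
  unfold cnt
  symm
  have hk : ∀ A B : Matrix ι ι F, Rel (fun a : F => a ≠ 0) A B ↔
      mkO A ∈ MulAction.orbit (ι → Fˣ) (mkO B) := by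
    intro A B
    rw [rel_ne_iff, MulAction.mem_orbit_iff]
    constructor
    · rintro ⟨t, h⟩
      refine ⟨t⁻¹, ?_⟩
      have h1 : t • mkO A = mkO B := by rw [smul_mk]; exact mkO_eq.2 h
      rw [← h1, inv_smul_smul]
    · rintro ⟨t, h⟩
      refine ⟨t⁻¹, ?_⟩
      have h1 : t⁻¹ • mkO A = mkO B := by rw [← h, inv_smul_smul]
      rw [smul_mk] at h1
      exact mkO_eq.1 h1
  refine Nat.card_congr (Equiv.ofBijective (Quotient.lift (fun A =>
    (Quotient.mk (MulAction.orbitRel (ι → Fˣ) (Orb ι F)) (mkO A))) ?_) ⟨?_, ?_⟩)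
  · intro A B h
    exact Quotient.sound ((hk A B).1 h)
  · intro a b
    induction a using Quotient.ind with | _ A
    induction b using Quotient.ind with | _ B
    intro h
    exact Quotient.sound ((hk A B).2 (Quotient.exact h))
  · intro x
    induction x using Quotient.ind with | _ y
    obtain ⟨A, rfl⟩ := mkO_surj y
    exact ⟨Quotient.mk _ A, rfl⟩

end Pool.Agent.HIG8
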